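import Pool.Agent.Q300.TW.Loc

/-!
# The local strong monodromy conjecture, with orders, for stably sparse germs

A germ `f(x)`, `f(0) = 0`, `x = (x_1, …, x_N)`, of a holomorphic function (or a formal power series) is
called stably sparse here if for some `k` the function `f(x) + y_1 z_1 + ⋯ + y_k z_k` becomes, in suitable
formal coordinates at the origin and up to a unit factor, a polynomial `g = ∑_j a_j X ^ (v j) + h`
with affinely independent `v j`, arbitrary `a_j ≠ 0`, and `h = 0` or `h` of higher order: there is a
linear functional `ρ` with `ρ(v j) = 1` for all `j` and `ρ(w) > 1` for all the exponents `w` of `h`; all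
the `w` are in the Newton polyhedron of the `v j`, but not on its compact faces. We prove that
`b_f(s) Z_f(s)` is a polynomial, where `b_f` is the Bernstein-Sato polynomial of the germ `f` and `Z_f`
its local topological zeta function: every pole of `Z_f` is a root of `b_f`, of at least the same order.

This contains the germs which are of the form `∑_j a_j x ^ (v j) + h` in suitable coordinates (`k = 0`),
and (second part) the restrictions `f` of a polynomial `l_0(x, z)` to a smooth germ
`V = {l_1(x, z) = ⋯ = l_k(x, z) = 0}` with coordinates `x` such that `l_0 + ∑ y_i l_i` has the form of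
`g`, for instance `f = (x_2 ^ a - x_1 ^ b) ^ c + x_1 ^ u x_2 ^ v`, with `z = x_2 ^ a - x_1 ^ b`, for
suitable exponents. The coefficients are arbitrary (not generic); the germs are in general
degenerate with respect to their Newton polyhedra in all coordinates, and the singularities are
not isolated.

Method. If `b_f(s) = (s + 1) c(s)`, then `f + ∑ y_i z_i`, and so `g`, has a local functional equation
with `(s + 1) c(s + k)` (`Y229.PS.becomes_local`). By the theorem on sparse polynomials plus higher
order terms (starting result `SparseHigherOrder`) `(s + 1) c(s + k) Z_g(s)` is a polynomial. Finally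
`1 - Z_f(s) = (1 - Z_g(s - k)) s (s - k + 1) / ((s - k) (s + 1))`.
-/

set_option autoImplicit false

namespace Pool.Agent.Results.MP_6163c8_ag.StablySparseGerms

open Polynomial
open Pool.Agent.W425.SM (SmoothFan Principal sparse)
open Pool.Agent.W425.SH (Higher Above)
open Pool.Agent.W425.SL (topZetaSparseLocal)
open Pool.Agent.Y229.RE (unstab emb yv)
open Pool.Agent.Y229.PS (Becomes IsFormalBFunction)

/-- **The strong monodromy conjecture, with multiplicities, for the local topological zeta
functions of stably sparse germs.**

Let `v j ≠ 0`, `j = 1, …, r`, be affinely independent exponents of monomials in the variables `x_i`,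
`y_j`, `z_j` (`N + 2 k` variables), `a_j ≠ 0`, and let `h` be zero or of higher order (`Higher v h`), with
exponents in the Newton polyhedron of the `v j` and not on its compact faces (`Above v h`). Put
`g = sparse v a + h = ∑_j a_j X ^ (v j) + h`. `IsFormalBFunction f b` says that
`b(s) f ^ s = P(s) f ^ (s + 1)` for a differential operator `P(s)` with formal (in particular
convergent) power series coefficients; for example `b = b_f`.

First part. Let `f ∈ ℂ[[x_1, …, x_N]]`, `f ≠ 0`, `f(0) = 0`, be such that `f(x) + ∑_{i ≤ k} y_i z_i` becomes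
`g`, up to a unit factor, in suitable formal coordinates at the origin (`Becomes`). Then
`b(s) (s - k) Z_f(s)` is a polynomial for every `b` with `IsFormalBFunction f b`; so every pole
`s0 ≠ k` of `Z_f` is a root of `b`, of at least the same order (all the poles of `Z_f` are negative
rational numbers). Here `Z_f = unstab k 1 Z`, that is
`1 - Z_f(s) = (1 - Z(s - k)) s (s - k + 1) / ((s - k) (s + 1))`, where `Z = topZetaSparseLocal v R` is the
local topological zeta function of `g`, computed on the toric embedded resolution given by any
smooth fan `R` on which the ideal `(X ^ (v j))_j` becomes principal.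

Second part. Let `l_0, …, l_k` be polynomials in `x, z` without constant terms such that the matrix of
the `∂ l_i / ∂ z_j`, `i ≥ 1`, is invertible at the origin and `l_0 + ∑ y_i l_i = g`. Let
`f ∈ ℂ[[x]]`, `f ≠ 0`, be the restriction of `l_0` to `V = {l_1 = ⋯ = l_k = 0}`, that is
`l_0 = f + ∑ q_i l_i` with formal power series `q_i`, and let `q_i(0) = 0` (which is automatic if `l_0` has
no linear part). Then the same conclusion holds for `f`. -/
theorem result {N k r : ℕ} (hr : 1 ≤ r) (v : Fin r → Fin (N + (k + k)) → ℕ) (a : Fin r → ℂ)
    (h : MvPolynomial (Fin (N + (k + k))) ℂ)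
    (hv : AffineIndependent ℚ (fun j => (fun i => (v j i : ℚ) : Fin (N + (k + k)) → ℚ)))
    (hv0 : ∀ j, v j ≠ 0) (ha : ∀ j, a j ≠ 0) (h1 : h = 0 ∨ Higher v h) (h2 : Above v h)
    (R : SmoothFan (N + (k + k))) (hR : Principal v R)
    (f : MvPowerSeries (Fin N) ℂ) (hf : f ≠ 0) (b : ℂ[X]) (hb : IsFormalBFunction f b) :
    (MvPowerSeries.constantCoeff f = 0 → Becomes f k (sparse v a + h) →
      ∃ P : ℂ[X], algebraMap ℂ[X] (RatFunc ℂ) (b * (X - C (k : ℂ))) *
        unstab k 1 (topZetaSparseLocal v R) = algebraMap ℂ[X] (RatFunc ℂ) P) ∧
    (∀ l : Fin (k + 1) → MvPolynomial (Fin (N + k)) ℂ,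
      (∀ i, MvPolynomial.constantCoeff (l i) = 0) →
      (Matrix.of fun i j : Fin k => MvPolynomial.coeff (Finsupp.single (Fin.natAdd N j) 1)
        (l i.succ)).det ≠ 0 →
      MvPolynomial.rename emb (l 0) + ∑ i : Fin k, MvPolynomial.X (yv N i) *
        MvPolynomial.rename emb (l i.succ) = sparse v a + h →
      ∀ q : Fin k → MvPowerSeries (Fin (N + k)) ℂ,
        (∀ i, MvPowerSeries.constantCoeff (q i) = 0) →
        (l 0 : MvPowerSeries (Fin (N + k)) ℂ) = MvPowerSeries.rename (Fin.castAdd k) f +
          ∑ i, q i * (l i.succ : MvPowerSeries (Fin (N + k)) ℂ) →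
      ∃ P : ℂ[X], algebraMap ℂ[X] (RatFunc ℂ) (b * (X - C (k : ℂ))) *
        unstab k 1 (topZetaSparseLocal v R) = algebraMap ℂ[X] (RatFunc ℂ) P) :=
  ⟨fun hf0 hB => Pool.Agent.Q300.TW.stab_sparse_loc hr v a h hv hv0 ha h1 h2 f hf hf0 hB b hb
    R hR, fun l hl0 hdet hG q hq hF => Pool.Agent.Q300.TW.emb_sparse_loc hr v a h hv hv0 ha h1 h2
    l hl0 hdet hG f q hf hq hF b hb R hR⟩

end Pool.Agent.Results.MP_6163c8_ag.StablySparseGerms
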