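import Pool.Agent.Q59.TR.TopFin

/-!
# Topological zeta functions and Bernstein-Sato roots at the origin: reduction to trilinear polynomials

Let `f ∈ ℂ[x_1, …, x_n]`, `f(0) = 0`. For `κ ≥ κ(f)` the polynomial `f(x) + y_1 z_1 + ⋯ + y_κ z_κ` becomes,
by an automorphism of the polynomial ring which fixes the origin, a polynomial `G` of the form
`∑ a_{ijk} x_i y_j z_k` with `x_0 = y_0 = z_0 = 1`; its germ is, up to a unit, the germ of the cubic form
`∑ a_{ijk} x_i y_j z_k` at a point. Every pole `s₀ ≠ -1, κ` of the local topological zeta function of `f`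
gives the pole `s₀ - κ` of the one of `G`, and a local functional equation of `f` with
`b(s) = (s + 1) c(s)` gives one of `G` with `(s + 1) c(s + κ)`. So the conjecture for the germs of all
polynomials is equivalent to the conjecture for the germs of the trilinear ones.

The topological zeta function is defined as by Denef and Loeser, from the motivic zeta function
`Z_mot(T) = ∑_d [X_d] 𝕃 ^ (-n d) T ^ d` in `𝓜[[T]]`, `X_d` the set of the `d`-jets with origin `0` on which
`f` has the order `d` (`zetaG f {0} {a | a ≠ 0}`), `𝓜` the Grothendieck ring of complex varieties,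
localised at `𝕃`: `Z_top(s) = χ(Z_mot(𝕃 ^ (-s)))` for `s = 1, 2, 3, …`. For this, let `E` be a homomorphism
from `𝓜` to a domain `R` with `E(𝕃) ≠ 1`, such as the Hodge-Deligne polynomial `E(u, v)`, and `ε` a
homomorphism from `R` to `ℂ` with `ε(E(𝕃)) = 1`, such as `u, v ↦ 1`, so that `ε ∘ E` is the Euler
characteristic `χ` (`IsTopZeta`).

Method. The new variables are the words `w` in the letters `1, …, n` of length at most the degree of `f`;
the relations `l_w` are `V_{i w} - V_w c_i` and `c_j - x_j`. Modulo the relations `f` is linear in the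
words: `f + ∑ q_w l_w = λ`, and `λ + ∑ y_w l_w = f + ∑ (y_w + q_w) l_w` where `x, l` is a system of
coordinates. The relation of the classes of the jets of `f` and `f + y z` is from the starting library
(`Pool.Agent.Y229.MS`); it gives `χ(W) - Z_{f + y z}(s) = (χ(W) - Z_f(s + 1)) s (s + 2) / (s + 1) ^ 2`
(`W` the set of the origins). No resolution of singularities is used.
The jets with origin at the points `(0, y, z) ≠ 0` only contribute a function `a + t / (s + 1)`: at
these points a partial derivative does not vanish.
-/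

set_option autoImplicit false

namespace Pool.Agent.Results.MP_6163c8_ag.TrilinearReduction

open MvPolynomial Pool.Agent.W375.MG Pool.Agent.W428.MOT Pool.Agent.H628R4.TP Pool.Agent.TH192.MU

/-- The conjecture for the germ of `f` at the origin: every pole of the local topological zeta
function of `f` is a root of every polynomial `b` with `b(s) f ^ s = P(s) f ^ (s + 1)`, `P(s)` a
differential operator with (formal, in particular convergent) power series as coefficients,
polynomial in `s` (`IsLocalBFunction`), in particular of the local Bernstein-Sato polynomial. -/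
def StrongTop0 {R : Type} [CommRing R] (E : MK ℂ →+* R) (ε : R →+* ℂ) {n : ℕ}
    (f : MvPolynomial (Fin n) ℂ) : Prop :=
  ∀ Z : RatFunc ℂ, IsTopZeta E ε (zetaG f {0} {a | a ≠ 0}) Z →
    ∀ s₀ : ℂ, Z.denom.eval s₀ = 0 → ∀ b : Polynomial ℂ, IsLocalBFunction f b → b.eval s₀ = 0

/-- `f = ∑ a_{ijk} x_i y_j z_k` with `x_0 = y_0 = z_0 = 1`: the variables can be coloured with three
colours such that every monomial of `f` is of degree at most one in the variables of each colour. -/
def Trilinear {n : ℕ} (f : MvPolynomial (Fin n) ℂ) : Prop :=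
  ∃ col : Fin n → Fin 3, ∀ w ∈ f.support, ∀ g : Fin 3,
    ∑ i ∈ Finset.univ.filter (fun i => col i = g), w i ≤ 1

/-- **Reduction of the local strong monodromy conjecture for topological zeta functions to
trilinear polynomials.** -/
theorem result (R : Type) [CommRing R] [IsDomain R] (E : MK ℂ →+* R) (ε : R →+* ℂ)
    (hε : ε (E ((Lu ℂ : (MK ℂ)ˣ) : MK ℂ)) = 1) (hE : E ((Lu ℂ : (MK ℂ)ˣ) : MK ℂ) ≠ 1) :
    (∀ (n : ℕ) (f : MvPolynomial (Fin n) ℂ), f.totalDegree ≠ 0 → constantCoeff f = 0 →
      StrongTop0 E ε f) ↔
    ∀ (n : ℕ) (f : MvPolynomial (Fin n) ℂ), f.totalDegree ≠ 0 → constantCoeff f = 0 →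
      Trilinear f → StrongTop0 E ε f :=
  ⟨fun h _ f hf h0 _ => h _ f hf h0, fun h _ f hf h0 Z hZ s₀ hs b hb => by
    obtain ⟨i, hi, h2⟩ := Pool.Agent.Q59.TR.topL_transfer hε hE (I := {0}) (Or.inl rfl)
      (fun n f hf h0 hT Z hZ s₀ hs b hb => ⟨0, rfl, by
        rw [Int.cast_zero, add_zero]
        exact h n f hf h0 hT Z hZ s₀ hs b hb⟩) f hf h0 Z hZ s₀ hs b hb
    rw [Set.mem_singleton_iff.1 hi, Int.cast_zero, add_zero] at h2
    exact h2⟩

end Pool.Agent.Results.MP_6163c8_ag.TrilinearReduction
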